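import Mathlib

set_option autoImplicit false

/-!
# Locating colourings: definitions and distances to colour classes
-/

namespace Pool.Agent.Q120.LC

open SimpleGraph

variable {V : Type*}

/-- the distance of a vertex to a set of vertices -/
noncomputable def dTo (G : SimpleGraph V) (v : V) (S : Set V) : ℕ := sInf (G.dist v '' S)

/-- a proper colouring with `k` colours, all of them used, is locating if distinct vertices have
distinct colour codes -/
def IsLocating (G : SimpleGraph V) (k : ℕ) (c : V → Fin k) : Prop :=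
  (∀ u v, G.Adj u v → c u ≠ c v) ∧ Function.Surjective c ∧
    ∀ u v, (∀ i, dTo G u (c ⁻¹' {i}) = dTo G v (c ⁻¹' {i})) → u = v

/-- the locating chromatic number -/
noncomputable def chiL (G : SimpleGraph V) : ℕ := sInf {k | ∃ c : V → Fin k, IsLocating G k c}

lemma dTo_le (G : SimpleGraph V) (v : V) {S : Set V} {s : V} (hs : s ∈ S) :
    dTo G v S ≤ G.dist v s := Nat.sInf_le ⟨s, hs, rfl⟩

lemma exists_dTo (G : SimpleGraph V) (v : V) {S : Set V} (hS : S.Nonempty) :
    ∃ s ∈ S, dTo G v S = G.dist v s := by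
  obtain ⟨s, hs, h⟩ := Nat.sInf_mem (s := G.dist v '' S) (hS.image _)
  exact ⟨s, hs, h.symm⟩

lemma dTo_self (G : SimpleGraph V) {v : V} {S : Set V} (hv : v ∈ S) : dTo G v S = 0 := by
  have := dTo_le G v hv
  simpa using this

lemma mem_of_dTo_zero {G : SimpleGraph V} (hG : G.Connected) {v : V} {S : Set V} (hS : S.Nonempty)
    (h : dTo G v S = 0) : v ∈ S := by
  obtain ⟨s, hs, h1⟩ := exists_dTo G v hS
  rw [h] at h1
  have : v = s := hG.dist_eq_zero_iff.1 h1.symm
  rw [this]
  exact hs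

lemma dTo_eq_one {G : SimpleGraph V} (hG : G.Connected) {v u : V} {S : Set V} (hv : v ∉ S)
    (hu : u ∈ S) (ha : G.Adj v u) : dTo G v S = 1 := by
  have h1 := dTo_le G v hu
  rw [dist_eq_one_iff_adj.2 ha] at h1
  have h2 : dTo G v S ≠ 0 := fun h => hv (mem_of_dTo_zero hG ⟨u, hu⟩ h)
  omega

lemma adj_of_dTo_one {G : SimpleGraph V} {v : V} {S : Set V} (hS : S.Nonempty)
    (h : dTo G v S = 1) : ∃ u ∈ S, G.Adj v u := by
  obtain ⟨s, hs, h1⟩ := exists_dTo G v hS
  rw [h] at h1
  exact ⟨s, hs, dist_eq_one_iff_adj.1 h1.symm⟩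

lemma dTo_eq_two {G : SimpleGraph V} (hG : G.Connected) {v w u : V} {S : Set V} (hv : v ∉ S)
    (hn : ∀ x ∈ S, ¬ G.Adj v x) (hu : u ∈ S) (ha : G.Adj v w) (hb : G.Adj w u) :
    dTo G v S = 2 := by
  have h1 := dTo_le G v hu
  have h3 : G.dist v u ≤ 2 := by
    have := G.dist_le (Walk.cons ha (Walk.cons hb Walk.nil))
    simpa using this
  have h2 : dTo G v S ≠ 0 := fun h => hv (mem_of_dTo_zero hG ⟨u, hu⟩ h)
  have h4 : dTo G v S ≠ 1 := by
    intro h
    obtain ⟨x, hx, hx2⟩ := adj_of_dTo_one ⟨u, hu⟩ h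
    exact hn x hx hx2
  omega

/-- a certificate for the distance to a set -/
lemma dTo_cert {G : SimpleGraph V} (hG : G.Connected) {S : Set V} (f : V → ℕ)
    (h0 : ∀ v, v ∈ S → f v = 0) (h0' : ∀ v, f v = 0 → v ∈ S)
    (h1 : ∀ u v, G.Adj u v → f u ≤ f v + 1) (h2 : ∀ v, f v ≠ 0 → ∃ u, G.Adj v u ∧ f u + 1 = f v)
    (v : V) : dTo G v S = f v := by
  have key : ∀ k : ℕ, ∀ v, f v = k → ∃ s ∈ S, G.dist v s ≤ k := by
    intro k
    induction k with
    | zero => intro v hv; exact ⟨v, h0' v hv, by simp⟩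
    | succ k ih =>
      intro v hv
      obtain ⟨u, hu, hu2⟩ := h2 v (by omega)
      obtain ⟨s, hs, hs2⟩ := ih u (by omega)
      refine ⟨s, hs, ?_⟩
      have := hG.dist_triangle (u := v) (v := u) (w := s)
      rw [dist_eq_one_iff_adj.2 hu] at this
      omega
  have low : ∀ (x y : V) (p : G.Walk x y), f x ≤ f y + p.length := by
    intro x y p
    induction p with
    | nil => simp
    | cons h p ih =>
      have := h1 _ _ h
      rw [Walk.length_cons]
      omega
  obtain ⟨s, hs, hs2⟩ := key (f v) v rfl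
  have h3 := dTo_le G v hs
  obtain ⟨t, ht, ht2⟩ := exists_dTo G v ⟨s, hs⟩
  obtain ⟨p, hp⟩ := hG.exists_walk_length_eq_dist v t
  have h4 := low v t p
  rw [h0 t ht] at h4
  omega

end Pool.Agent.Q120.LC
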