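import Mathlib

set_option autoImplicit false

/-!
# Completing partial colourings column by column
-/

namespace Pool.Agent.Q120.LC

variable {K : Type*} [Fintype K] [DecidableEq K] {m : ℕ}

/-- completion of one column -/
theorem complete_col (hm : 7 ≤ m) (F : Fin m → Option K) (Miss : Finset K)
    (hK : Fintype.card K = m + Miss.card)
    (hinj : ∀ i i' x, F i = some x → F i' = some x → i = i')
    (hmiss : ∀ i x, F i = some x → x ∉ Miss)
    (h3 : (Finset.univ.filter fun i => F i ≠ none).card ≤ 3)
    (B : Fin m → Finset K) (hB : ∀ i, (B i).card ≤ 2)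
    (hB2 : ∀ x, (Finset.univ.filter fun i => x ∈ B i).card ≤ 2)
    (hFB : ∀ i x, F i = some x → x ∉ B i) :
    ∃ g : Fin m → K, Function.Injective g ∧ (∀ i, g i ∉ Miss) ∧ (∀ i x, F i = some x → g i = x) ∧
      ∀ i, g i ∉ B i := by
  classical
  -- the colours still available
  let Im : Finset K := Finset.univ.filter fun x => ∃ i, F i = some x
  have hIm : Im.card = (Finset.univ.filter fun i => F i ≠ none).card := by
    symm
    apply Finset.card_bij (fun i hi => (F i).get (Option.ne_none_iff_isSome.1
      (Finset.mem_filter.1 hi).2))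
    · intro i hi
      exact Finset.mem_filter.2 ⟨Finset.mem_univ _, i, by simp⟩
    · intro i hi i' hi' h
      apply hinj i i' ((F i).get (Option.ne_none_iff_isSome.1 (Finset.mem_filter.1 hi).2))
      · simp
      · rw [h]; simp
    · intro x hx
      obtain ⟨-, i, hi⟩ := Finset.mem_filter.1 hx
      refine ⟨i, Finset.mem_filter.2 ⟨Finset.mem_univ _, by simp [hi]⟩, by simp [hi]⟩
  let Av : Finset K := (Finset.univ \ Miss) \ Im
  have hAv : Av.card + Im.card = m := by
    have h1 : Im ⊆ Finset.univ \ Miss := by
      intro x hx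
      obtain ⟨-, i, hi⟩ := Finset.mem_filter.1 hx
      exact Finset.mem_sdiff.2 ⟨Finset.mem_univ _, hmiss i x hi⟩
    have h2 : Av.card = (Finset.univ \ Miss).card - Im.card := Finset.card_sdiff_of_subset h1
    have h4 := Finset.card_le_card h1
    have h5 : (Finset.univ \ Miss).card = Fintype.card K - Miss.card := by
      rw [Finset.card_sdiff_of_subset (Finset.subset_univ _), Finset.card_univ]
    omega
  have hU : (Finset.univ.filter fun i => F i = none).card + Im.card = m := by
    rw [hIm]
    have := Finset.card_filter_add_card_filter_not (s := (Finset.univ : Finset (Fin m)))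
      (fun i => F i = none)
    simpa using this
  have hsub : Fintype.card {i // F i = none} = (Finset.univ.filter fun i => F i = none).card :=
    Fintype.card_subtype _
  let t : {i // F i = none} → Finset K := fun i => Av \ B i.1
  have hall : ∀ s : Finset {i // F i = none}, s.card ≤ (s.biUnion t).card := by
    intro s
    rcases s.eq_empty_or_nonempty with rfl | ⟨i0, hi0⟩
    · simp
    have hs : s.card ≤ Fintype.card {i // F i = none} := Finset.card_le_univ _
    have hsubs : s.biUnion t ⊆ Av := by
      intro x hx
      obtain ⟨i, -, hi⟩ := Finset.mem_biUnion.1 hx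
      exact (Finset.mem_sdiff.1 hi).1
    by_cases hfull : s.biUnion t = Av
    · rw [hfull]
      omega
    · obtain ⟨x, hx, hx2⟩ : ∃ x ∈ Av, x ∉ s.biUnion t := by
        by_contra hcon
        push Not at hcon
        exact hfull (Finset.Subset.antisymm hsubs hcon)
      have h6 : ∀ i ∈ s, x ∈ B i.1 := by
        intro i hi
        by_contra h
        exact hx2 (Finset.mem_biUnion.2 ⟨i, hi, Finset.mem_sdiff.2 ⟨hx, h⟩⟩)
      have h7 : s.card ≤ 2 := by
        refine le_trans ?_ (hB2 x)
        apply Finset.card_le_card_of_injOn (fun i => i.1)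
        · intro i hi
          exact Finset.mem_filter.2 ⟨Finset.mem_univ _, h6 i hi⟩
        · intro i _ i' _ h
          exact Subtype.ext h
      have h8 : t i0 ⊆ s.biUnion t := Finset.subset_biUnion_of_mem t hi0
      have h9 := Finset.card_le_card h8
      have h10 : Av.card - (B i0.1).card ≤ (t i0).card := Finset.le_card_sdiff _ _
      have := hB i0.1
      rw [← hIm] at h3
      omega
  obtain ⟨f, hf, hf2⟩ := (Finset.all_card_le_biUnion_card_iff_exists_injective t).1 hall
  have hfmem : ∀ i, f i ∉ Miss ∧ f i ∉ Im ∧ f i ∉ B i.1 := by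
    intro i
    have h1 := Finset.mem_sdiff.1 (hf2 i)
    have h2 := Finset.mem_sdiff.1 h1.1
    exact ⟨(Finset.mem_sdiff.1 h2.1).2, h2.2, h1.2⟩
  let g : Fin m → K := fun i => if h : F i = none then f ⟨i, h⟩ else
    (F i).get (Option.ne_none_iff_isSome.1 h)
  have g1 : ∀ i (h : F i = none), g i = f ⟨i, h⟩ := fun i h => dif_pos h
  have g2 : ∀ i x, F i = some x → g i = x := by
    intro i x h
    have h' : F i ≠ none := by simp [h]
    have : g i = (F i).get (Option.ne_none_iff_isSome.1 h') := dif_neg h'
    rw [this]
    simp [h]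
  have hcase : ∀ i, F i = none ∨ ∃ x, F i = some x := fun i => by
    cases h : F i with
    | none => exact Or.inl rfl
    | some x => exact Or.inr ⟨x, rfl⟩
  refine ⟨g, ?_, ?_, g2, ?_⟩
  · intro i i' h
    rcases hcase i with hi | ⟨x, hx⟩ <;> rcases hcase i' with hi' | ⟨x', hx'⟩
    · rw [g1 i hi, g1 i' hi'] at h
      exact congrArg Subtype.val (hf h)
    · rw [g1 i hi, g2 i' x' hx'] at h
      exact absurd (Finset.mem_filter.2 ⟨Finset.mem_univ _, i', hx'⟩) (h ▸ (hfmem ⟨i, hi⟩).2.1)
    · rw [g1 i' hi', g2 i x hx] at h
      exact absurd (Finset.mem_filter.2 ⟨Finset.mem_univ _, i, hx⟩) (h ▸ (hfmem ⟨i', hi'⟩).2.1)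
    · rw [g2 i x hx, g2 i' x' hx'] at h
      subst h
      exact hinj i i' x hx hx'
  · intro i
    rcases hcase i with hi | ⟨x, hx⟩
    · rw [g1 i hi]
      exact (hfmem _).1
    · rw [g2 i x hx]
      exact hmiss i x hx
  · intro i
    rcases hcase i with hi | ⟨x, hx⟩
    · rw [g1 i hi]
      exact (hfmem _).2.2
    · rw [g2 i x hx]
      exact hFB i x hx

/-- completion of all columns -/
theorem complete_all {J : Type*} [Fintype J] [DecidableEq J] (H : SimpleGraph J)
    (hdeg : ∀ j : J, ∀ T : Finset J, (∀ x ∈ T, H.Adj j x) → T.card ≤ 2) (hm : 7 ≤ m)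
    (Miss : J → Finset K) (hK : ∀ j, Fintype.card K = m + (Miss j).card)
    (F : J → Fin m → Option K)
    (hinj : ∀ j i i' x, F j i = some x → F j i' = some x → i = i')
    (hmiss : ∀ j i x, F j i = some x → x ∉ Miss j)
    (hadj : ∀ j j' i x, H.Adj j j' → F j i = some x → F j' i ≠ some x)
    (h3 : ∀ j, (Finset.univ.filter fun i => F j i ≠ none).card ≤ 3) :
    ∃ c : J → Fin m → K, (∀ j, Function.Injective (c j)) ∧ (∀ j i, c j i ∉ Miss j) ∧
      (∀ j j' i, H.Adj j j' → c j i ≠ c j' i) ∧ ∀ j i x, F j i = some x → c j i = x := by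
  classical
  have key : ∀ T : Finset J, ∃ F' : J → Fin m → Option K,
      (∀ j i x, F j i = some x → F' j i = some x) ∧
      (∀ j i i' x, F' j i = some x → F' j i' = some x → i = i') ∧
      (∀ j i x, F' j i = some x → x ∉ Miss j) ∧
      (∀ j j' i x, H.Adj j j' → F' j i = some x → F' j' i ≠ some x) ∧
      (∀ j ∉ T, F' j = F j) ∧ ∀ j ∈ T, ∀ i, F' j i ≠ none := by
    intro T
    induction T using Finset.induction_on with
    | empty => exact ⟨F, fun _ _ _ h => h, hinj, hmiss, hadj, fun _ _ => rfl, by simp⟩
    | insert j0 T hj0 ih =>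
      obtain ⟨F', e1, e2, e3, e4, e5, e6⟩ := ih
      -- forbidden colours
      let B : Fin m → Finset K := fun i => Finset.univ.filter fun x => ∃ j, H.Adj j0 j ∧ F' j i = some x
      have hB : ∀ i, (B i).card ≤ 2 := by
        intro i
        have h1 : ∀ x ∈ B i, ∃ j, H.Adj j0 j ∧ F' j i = some x := fun x hx =>
          (Finset.mem_filter.1 hx).2
        have : Nonempty J := ⟨j0⟩
        choose! f hf1 hf2 using h1
        have h2 : (B i).card = ((B i).image f).card := by
          rw [Finset.card_image_of_injOn]
          intro x hx y hy h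
          have a1 := hf2 x hx
          have a2 := hf2 y hy
          rw [← h] at a2
          exact Option.some.inj (a1.symm.trans a2)
        rw [h2]
        apply hdeg j0
        intro j hj
        obtain ⟨x, hx, rfl⟩ := Finset.mem_image.1 hj
        exact hf1 x hx
      have hB2 : ∀ x, (Finset.univ.filter fun i => x ∈ B i).card ≤ 2 := by
        intro x
        have h1 : ∀ i ∈ (Finset.univ.filter fun i => x ∈ B i), ∃ j, H.Adj j0 j ∧ F' j i = some x :=
          fun i hi => (Finset.mem_filter.1 (Finset.mem_filter.1 hi).2).2
        have : Nonempty J := ⟨j0⟩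
        choose! f hf1 hf2 using h1
        have h2 : (Finset.univ.filter fun i => x ∈ B i).card =
            ((Finset.univ.filter fun i => x ∈ B i).image f).card := by
          rw [Finset.card_image_of_injOn]
          intro i hi i' hi' h
          have a1 := hf2 i hi
          have a2 := hf2 i' hi'
          rw [← h] at a2
          exact e2 _ i i' x a1 a2
        rw [h2]
        apply hdeg j0
        intro j hj
        obtain ⟨i, hi, rfl⟩ := Finset.mem_image.1 hj
        exact hf1 i hi
      have hFj : F' j0 = F j0 := e5 j0 hj0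
      obtain ⟨g, g1, g2, g3, g4⟩ := complete_col hm (F' j0) (Miss j0) (hK j0) (e2 j0) (e3 j0)
        (by rw [hFj]; exact h3 j0) B hB hB2 (by
          intro i x hx hxB
          obtain ⟨-, j, hj, hj2⟩ := Finset.mem_filter.1 hxB
          exact e4 j0 j i x hj hx hj2)
      obtain ⟨F2, u1, u2⟩ : ∃ F2 : J → Fin m → Option K, (∀ i, F2 j0 i = some (g i)) ∧
          ∀ j, j ≠ j0 → ∀ i, F2 j i = F' j i :=
        ⟨Function.update F' j0 fun i => some (g i), fun i => by simp,
          fun j hj i => by rw [Function.update_of_ne hj]⟩
      refine ⟨F2, ?_, ?_, ?_, ?_, ?_, ?_⟩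
      · intro j i x hx
        by_cases h : j = j0
        · subst h
          rw [u1, g3 i x (e1 _ i x hx)]
        · rw [u2 j h]
          exact e1 j i x hx
      · intro j i i' x hx hx'
        by_cases h : j = j0
        · subst h
          rw [u1] at hx hx'
          exact g1 ((Option.some.inj hx).trans (Option.some.inj hx').symm)
        · rw [u2 j h] at hx hx'
          exact e2 j i i' x hx hx'
      · intro j i x hx
        by_cases h : j = j0
        · subst h
          rw [u1] at hx
          rw [← Option.some.inj hx]
          exact g2 i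
        · rw [u2 j h] at hx
          exact e3 j i x hx
      · intro j j' i x hjj hx hx'
        by_cases h : j = j0
        · have h' : j' ≠ j0 := by
            rintro rfl
            exact hjj.ne h
          rw [u2 j' h'] at hx'
          subst h
          rw [u1] at hx
          have hgx : g i = x := Option.some.inj hx
          apply g4 i
          rw [hgx]
          exact Finset.mem_filter.2 ⟨Finset.mem_univ _, j', hjj, hx'⟩
        · rw [u2 j h] at hx
          by_cases h' : j' = j0
          · subst h'
            rw [u1] at hx'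
            have hgx : g i = x := Option.some.inj hx'
            apply g4 i
            rw [hgx]
            exact Finset.mem_filter.2 ⟨Finset.mem_univ _, j, hjj.symm, hx⟩
          · rw [u2 j' h'] at hx'
            exact e4 j j' i x hjj hx hx'
      · intro j hj
        have h : j ≠ j0 := fun h => hj (h ▸ Finset.mem_insert_self _ _)
        funext i
        rw [u2 j h, e5 j fun h' => hj (Finset.mem_insert_of_mem h')]
      · intro j hj i
        by_cases h : j = j0
        · subst h
          rw [u1]
          simp
        · rw [u2 j h]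
          exact e6 j ((Finset.mem_insert.1 hj).resolve_left h) i
  obtain ⟨F', e1, e2, e3, e4, -, e6⟩ := key Finset.univ
  have h7 : ∀ j i, ∃ x, F' j i = some x := fun j i =>
    Option.ne_none_iff_exists'.1 (e6 j (Finset.mem_univ _) i)
  choose c hc using h7
  refine ⟨c, ?_, ?_, ?_, ?_⟩
  · intro j i i' h
    exact e2 j i i' (c j i) (hc j i) (by rw [hc j i', h])
  · intro j i
    exact e3 j i _ (hc j i)
  · intro j j' i hjj h
    exact e4 j j' i (c j i) hjj (hc j i) (by rw [hc j' i, h])
  · intro j i x hx
    have := e1 j i x hx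
    rw [hc j i] at this
    exact Option.some.inj this

end Pool.Agent.Q120.LC
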