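import Mathlib
import Pool.Agent.Q120.LC.Basic

set_option autoImplicit false

/-!
# Locating colourings of `K_m □ H`: lower bounds
-/

namespace Pool.Agent.Q120.LC

open SimpleGraph

variable {J : Type*} {m : ℕ} {H : SimpleGraph J}

/-- the product with a complete graph -/
abbrev KP (m : ℕ) (H : SimpleGraph J) : SimpleGraph (Fin m × J) := (⊤ : SimpleGraph (Fin m)) □ H

lemma adj_col {i i' : Fin m} (h : i ≠ i') (j : J) : (KP m H).Adj (i, j) (i', j) := by
  rw [boxProd_adj]
  exact Or.inl ⟨h, rfl⟩

lemma adj_row (i : Fin m) {j j' : J} (h : H.Adj j j') : (KP m H).Adj (i, j) (i, j') := by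
  rw [boxProd_adj]
  exact Or.inr ⟨h, rfl⟩

lemma adj_iff {x y : Fin m × J} :
    (KP m H).Adj x y ↔ (x.1 ≠ y.1 ∧ x.2 = y.2) ∨ (H.Adj x.2 y.2 ∧ x.1 = y.1) := by
  rw [boxProd_adj]
  rfl

lemma kp_connected [NeZero m] (hH : H.Connected) : (KP m H).Connected := by
  apply Connected.boxProd
  · have : Nonempty (Fin m) := ⟨0⟩
    exact connected_top
  · exact hH

lemma col_inj {k : ℕ} {c : Fin m × J → Fin k} (hc : ∀ u v, (KP m H).Adj u v → c u ≠ c v) (j : J) :
    Function.Injective fun i => c (i, j) := by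
  intro i i' h
  by_contra hne
  exact hc _ _ (adj_col (H := H) hne j) h

lemma le_of_locating {k : ℕ} {c : Fin m × J → Fin k} (hc : IsLocating (KP m H) k c) (j : J) :
    m ≤ k := by
  simpa using Fintype.card_le_of_injective _ (col_inj hc.1 j)

/-- at least `m + 1` colours -/
lemma lt_of_locating [NeZero m] (hH : H.Connected) {k : ℕ} {c : Fin m × J → Fin k}
    (hc : IsLocating (KP m H) k c) {j j' : J} (hj : j ≠ j') : m + 1 ≤ k := by
  have h1 := le_of_locating hc j
  rcases Nat.lt_or_ge m k with h | h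
  · exact h
  exfalso
  have hk : k = m := le_antisymm h h1
  subst hk
  have hG : (KP k H).Connected := kp_connected hH
  have hs : ∀ (j : J) (x : Fin k), ∃ i, c (i, j) = x := fun j =>
    (Finite.injective_iff_surjective.1 (col_inj hc.1 j))
  obtain ⟨i', hi'⟩ := hs j' (c (0, j))
  have key : ∀ (v : Fin k × J) (x : Fin k), dTo (KP k H) v (c ⁻¹' {x}) = if c v = x then 0 else 1 := by
    intro v x
    split_ifs with h
    · exact dTo_self _ h
    · obtain ⟨i, hi⟩ := hs v.2 x
      refine dTo_eq_one hG (u := (i, v.2)) h hi ?_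
      have : v.1 ≠ i := by
        rintro rfl
        exact h hi
      exact adj_col this v.2
  have h2 := hc.2.2 (0, j) (i', j') fun x => by rw [key, key, hi']
  exact hj (Prod.ext_iff.1 h2).2

section

variable {c : Fin m × J → Fin (m + 1)}

/-- in every column exactly one colour is missing -/
lemma exists_missing (hc : ∀ u v, (KP m H).Adj u v → c u ≠ c v) (j : J) :
    ∃ a, (∀ i, c (i, j) ≠ a) ∧ ∀ x, x ≠ a → ∃ i, c (i, j) = x := by
  classical
  have hi := col_inj hc j
  have h1 : ∃ a, ∀ i, c (i, j) ≠ a := by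
    by_contra hcon
    push Not at hcon
    have : Function.Surjective fun i => c (i, j) := hcon
    have := Fintype.card_le_of_surjective _ this
    simp at this
  obtain ⟨a, ha⟩ := h1
  refine ⟨a, ha, fun x hx => ?_⟩
  have h2 : (Finset.univ.image fun i => c (i, j)) = Finset.univ.erase a := by
    apply Finset.eq_of_subset_of_card_le
    · intro y hy
      obtain ⟨i, _, hi2⟩ := Finset.mem_image.1 hy
      refine Finset.mem_erase.2 ⟨?_, Finset.mem_univ _⟩
      rw [← hi2]
      exact ha i
    · rw [Finset.card_erase_of_mem (Finset.mem_univ _), Finset.card_image_of_injective _ hi]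
      simp
  have h3 : x ∈ Finset.univ.image fun i => c (i, j) := by
    rw [h2]
    exact Finset.mem_erase.2 ⟨hx, Finset.mem_univ _⟩
  obtain ⟨i, _, hi2⟩ := Finset.mem_image.1 h3
  exact ⟨i, hi2⟩

/-- two vertices of the same colour in columns without the colour `a` -/
lemma same_code [NeZero m] (hH : H.Connected) (hc : IsLocating (KP m H) (m + 1) c)
    {a : Fin (m + 1)} {i i' : Fin m} {j j' : J} (hj : ∀ x, x ≠ a → ∃ r, c (r, j) = x)
    (hj' : ∀ x, x ≠ a → ∃ r, c (r, j') = x) (hcc : c (i, j) = c (i', j'))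
    (ha : dTo (KP m H) (i, j) (c ⁻¹' {a}) = dTo (KP m H) (i', j') (c ⁻¹' {a})) : j = j' := by
  have hG : (KP m H).Connected := kp_connected hH
  have h2 := hc.2.2 (i, j) (i', j') ?_
  · exact (Prod.ext_iff.1 h2).2
  intro x
  by_cases hx : x = a
  · rw [hx]; exact ha
  by_cases hx2 : c (i, j) = x
  · rw [dTo_self _ (show (i, j) ∈ c ⁻¹' {x} from hx2),
      dTo_self _ (show (i', j') ∈ c ⁻¹' {x} from hcc.symm.trans hx2)]
  have key : ∀ (i : Fin m) (j : J), (∀ x, x ≠ a → ∃ r, c (r, j) = x) → c (i, j) ≠ x →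
      dTo (KP m H) (i, j) (c ⁻¹' {x}) = 1 := by
    intro i j h1 h2
    obtain ⟨r, hr⟩ := h1 x hx
    refine dTo_eq_one hG (u := (r, j)) h2 hr (adj_col ?_ j)
    rintro rfl
    exact h2 hr
  rw [key i j hj hx2, key i' j' hj' (fun h => hx2 (hcc.trans h))]

/-- the main lower bound -/
theorem card_le [Fintype J] (hm : 5 ≤ m) (hH : H.Connected)
    (hdeg : ∀ j : J, ∀ T : Finset J, (∀ x ∈ T, H.Adj j x) → T.card ≤ 2)
    (hc : IsLocating (KP m H) (m + 1) c) : Fintype.card J ≤ m + 1 := by
  classical
  have : NeZero m := ⟨by omega⟩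
  have hG : (KP m H).Connected := kp_connected hH
  by_contra hcard
  push Not at hcard
  choose a ha1 ha2 using exists_missing hc.1
  obtain ⟨j1, j2, hj12, haj⟩ := Fintype.exists_ne_map_eq_of_card_lt a (by simpa using hcard)
  set A := a j1 with hA
  -- the columns without the colour `A`
  let M : Set J := {j | a j = A}
  have hM1 : j1 ∈ M := rfl
  have hM2 : j2 ∈ M := haj.symm
  have hMrow : ∀ j ∈ M, ∀ i, c (i, j) ≠ A := fun j hj i => by
    have := ha1 j i
    rwa [show a j = A from hj] at this
  have hMcol : ∀ j ∈ M, ∀ x, x ≠ A → ∃ r, c (r, j) = x := fun j hj x hx =>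
    ha2 j x (by rwa [show a j = A from hj])
  have hMc : ∀ j, j ∉ M → ∃ r, c (r, j) = A := fun j hj => ha2 j A fun h => hj h.symm
  obtain ⟨⟨r9, l9⟩, hv9⟩ := hc.2.1 A
  have hl9 : l9 ∉ M := fun h => hMrow l9 h r9 hv9
  -- crossing edges
  have cross : ∀ (S : Set J) (x y : J), x ∈ S → y ∉ S → ∃ u v, u ∈ S ∧ v ∉ S ∧ H.Adj u v := by
    intro S x y hx hy
    obtain ⟨p⟩ := hH.preconnected x y
    obtain ⟨d, -, h1, h2⟩ := p.exists_boundary_dart S hx hy
    exact ⟨d.fst, d.snd, h1, h2, d.adj⟩
  obtain ⟨b, l, hb, hl, hbl⟩ := cross M j1 l9 hM1 hl9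
  by_cases hB : ∃ b' ∈ M, b' ≠ b ∧ ∃ l' ∉ M, H.Adj b' l'
  · -- two columns next to columns with the colour `A`
    obtain ⟨b', hb', hbb, l', hl', hbl'⟩ := hB
    -- the rows at distance one
    let E : J → Finset (Fin m) := fun j => Finset.univ.filter fun i => ∃ x, H.Adj j x ∧ c (i, x) = A
    have hE : ∀ j, (E j).card ≤ 2 := by
      intro j
      have h1 : ∀ i ∈ E j, ∃ x, H.Adj j x ∧ c (i, x) = A := fun i hi => (Finset.mem_filter.1 hi).2
      have : Nonempty J := ⟨j1⟩
      choose! g hg1 hg2 using h1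
      have h2 : (E j).card = ((E j).image g).card := by
        rw [Finset.card_image_of_injOn]
        intro i hi i' hi' h
        have e1 := hg2 i hi
        have e2 := hg2 i' hi'
        rw [← h] at e2
        exact col_inj hc.1 (g i) (e1.trans e2.symm)
      rw [h2]
      apply hdeg j
      intro x hx
      obtain ⟨i, hi, rfl⟩ := Finset.mem_image.1 hx
      exact hg1 i hi
    have hD : ∀ j ∈ M, (∃ l ∉ M, H.Adj j l) → ∀ i ∉ E j, dTo (KP m H) (i, j) (c ⁻¹' {A}) = 2 := by
      intro j hj ⟨l, hl, hjl⟩ i hi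
      obtain ⟨r, hr⟩ := hMc l hl
      have hir : i ≠ r := by
        rintro rfl
        exact hi (Finset.mem_filter.2 ⟨Finset.mem_univ _, l, hjl, hr⟩)
      refine dTo_eq_two hG (w := (i, l)) (u := (r, l)) (hMrow j hj i) ?_ hr (adj_row i hjl)
        (adj_col hir l)
      rintro ⟨i', j'⟩ hx hadj
      rw [adj_iff] at hadj
      rcases hadj with ⟨-, h⟩ | ⟨h, h'⟩
      · simp only at h
        subst h
        exact hMrow _ hj i' hx
      · simp only at h h'
        subst h'
        exact hi (Finset.mem_filter.2 ⟨Finset.mem_univ _, j', h, hx⟩)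
    -- the same colour in the two columns
    have h3 : ∀ i, ∃ i', c (i', b') = c (i, b) := fun i =>
      hMcol b' hb' _ (hMrow b hb i)
    choose g hg using h3
    have hginj : Function.Injective g := by
      intro i i' h
      have e1 := hg i
      have e2 := hg i'
      rw [h] at e1
      exact col_inj hc.1 b (e1.symm.trans e2)
    have h4 : ∃ i, i ∉ E b ∧ g i ∉ E b' := by
      by_contra hcon
      push Not at hcon
      have h5 : (Finset.univ : Finset (Fin m)) ⊆ E b ∪ (Finset.univ.filter fun i => g i ∈ E b') := by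
        intro i _
        rw [Finset.mem_union]
        by_cases h : i ∈ E b
        · exact Or.inl h
        · exact Or.inr (Finset.mem_filter.2 ⟨Finset.mem_univ _, hcon i h⟩)
      have h6 := Finset.card_le_card h5
      have h7 := Finset.card_union_le (E b) (Finset.univ.filter fun i => g i ∈ E b')
      have h8 : (Finset.univ.filter fun i => g i ∈ E b').card ≤ (E b').card := by
        apply Finset.card_le_card_of_injOn g
        · intro i hi
          exact (Finset.mem_filter.1 hi).2
        · exact hginj.injOn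
      have h9 := hE b
      have h10 := hE b'
      simp only [Finset.card_univ, Fintype.card_fin] at h6
      omega
    obtain ⟨i, hi1, hi2⟩ := h4
    have := same_code hH hc (hMcol b' hb') (hMcol b hb) (hg i)
      (by rw [hD b' hb' ⟨l', hl', hbl'⟩ _ hi2, hD b hb ⟨l, hl, hbl⟩ _ hi1])
    exact hbb this
  · -- one column only
    push Not at hB
    obtain ⟨j, hj, hjb⟩ : ∃ j ∈ M, j ≠ b := by
      by_cases h : j1 = b
      · exact ⟨j2, hM2, fun h' => hj12 (h.trans h'.symm)⟩
      · exact ⟨j1, hM1, h⟩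
    obtain ⟨k, b1, hk, hb1, hkb⟩ := cross (M \ {b}) j b ⟨hj, hjb⟩ (fun h => h.2 rfl)
    have hb1' : b1 = b := by
      by_contra h
      have h1 : b1 ∉ M := fun h' => hb1 ⟨h', h⟩
      exact hB k hk.1 hk.2 b1 h1 hkb
    subst hb1'
    have hkM : ∀ x, H.Adj k x → x ∈ M := by
      intro x hx
      by_contra h
      exact hB k hk.1 hk.2 x h hx
    obtain ⟨r0, hr0⟩ := hMc l hl
    obtain ⟨i', hi'⟩ := hMcol b1 hb (c (r0, k)) (hMrow k hk.1 r0)
    have hne : i' ≠ r0 := by
      rintro rfl
      exact hc.1 _ _ (adj_row i' hkb) hi'.symm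
    have hD1 : dTo (KP m H) (r0, k) (c ⁻¹' {A}) = 2 := by
      refine dTo_eq_two hG (w := (r0, b1)) (u := (r0, l)) (hMrow k hk.1 r0) ?_ hr0 (adj_row r0 hkb)
        (adj_row r0 hbl)
      rintro ⟨i2, j2⟩ hx hadj
      rw [adj_iff] at hadj
      rcases hadj with ⟨-, h⟩ | ⟨h, h'⟩
      · simp only at h
        subst h
        exact hMrow _ hk.1 i2 hx
      · simp only at h h'
        exact hMrow _ (hkM j2 h) i2 hx
    have hD2 : dTo (KP m H) (i', b1) (c ⁻¹' {A}) = 2 := by
      refine dTo_eq_two hG (w := (i', l)) (u := (r0, l)) (hMrow b1 hb i') ?_ hr0 (adj_row i' hbl)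
        (adj_col hne l)
      rintro ⟨i2, j2⟩ hx hadj
      rw [adj_iff] at hadj
      rcases hadj with ⟨-, h⟩ | ⟨h, h'⟩
      · simp only at h
        subst h
        exact hMrow _ hb i2 hx
      · simp only at h h'
        subst h'
        have hkl : k ≠ l := fun h => hl (h ▸ hk.1)
        have h2 : j2 = k ∨ j2 = l := by
          by_contra hcon
          push Not at hcon
          have := hdeg b1 {j2, k, l} (by
            intro x hx
            simp only [Finset.mem_insert, Finset.mem_singleton] at hx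
            rcases hx with rfl | rfl | rfl
            · exact h
            · exact hkb.symm
            · exact hbl)
          rw [Finset.card_insert_of_notMem (by simp [hcon.1, hcon.2]),
            Finset.card_insert_of_notMem (by simp [hkl]), Finset.card_singleton] at this
          omega
        rcases h2 with rfl | rfl
        · exact hMrow _ hk.1 i' hx
        · exact hne (col_inj hc.1 j2 (hx.trans hr0.symm))
    have := same_code hH hc (hMcol b1 hb) (hMcol k hk.1) hi' (by rw [hD1, hD2])
    exact hk.2 this.symm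

end

end Pool.Agent.Q120.LC
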