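import Mathlib
import Pool.Agent.Q120.LC.Lower
import Pool.Agent.Q120.LC.Complete

set_option autoImplicit false

/-!
# Locating colourings of `K_m □ H`: criteria
-/

namespace Pool.Agent.Q120.LC

open SimpleGraph

variable {J : Type*} {m k : ℕ} {H : SimpleGraph J}

/-- the colouring of the product given by the columns -/
def colr (c : J → Fin m → Fin k) (v : Fin m × J) : Fin k := c v.2 v.1

lemma colr_proper {c : J → Fin m → Fin k} (h1 : ∀ j, Function.Injective (c j))
    (h2 : ∀ j j' i, H.Adj j j' → c j i ≠ c j' i) (u v : Fin m × J) (h : (KP m H).Adj u v) :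
    colr c u ≠ colr c v := by
  obtain ⟨i, j⟩ := u
  obtain ⟨i', j'⟩ := v
  rw [adj_iff] at h
  rcases h with ⟨h, h'⟩ | ⟨h, h'⟩
  · simp only at h h'
    subst h'
    exact fun h3 => h (h1 j h3)
  · simp only at h h'
    subst h'
    exact h2 j j' i h

lemma dTo_present [NeZero m] (hH : H.Connected) {c : J → Fin m → Fin k} {i r : Fin m} {j : J}
    {x : Fin k} (hx : c j i ≠ x) (hr : c j r = x) :
    dTo (KP m H) (i, j) (colr c ⁻¹' {x}) = 1 := by
  refine dTo_eq_one (kp_connected hH) (u := (r, j)) hx hr (adj_col ?_ j)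
  rintro rfl
  exact hx hr

/-- an injective column without the colours of `M` contains all other colours -/
lemma col_surj {K : Type*} [Fintype K] [DecidableEq K] {g : Fin m → K} (hg : Function.Injective g)
    {M : Finset K} (hM : ∀ i, g i ∉ M) (hK : Fintype.card K = m + M.card) {x : K} (hx : x ∉ M) :
    ∃ i, g i = x := by
  have h2 : (Finset.univ.image g) = Finset.univ \ M := by
    apply Finset.eq_of_subset_of_card_le
    · intro y hy
      obtain ⟨i, _, rfl⟩ := Finset.mem_image.1 hy
      exact Finset.mem_sdiff.2 ⟨Finset.mem_univ _, hM i⟩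
    · rw [Finset.card_sdiff_of_subset (Finset.subset_univ _), Finset.card_image_of_injective _ hg,
        Finset.card_univ, Finset.card_univ, Fintype.card_fin]
      omega
  have h3 : x ∈ Finset.univ.image g := by
    rw [h2]
    exact Finset.mem_sdiff.2 ⟨Finset.mem_univ _, hx⟩
  obtain ⟨i, _, hi⟩ := Finset.mem_image.1 h3
  exact ⟨i, hi⟩

/-- criterion for few columns -/
theorem locating_A [NeZero m] (hH : H.Connected) (c : J → Fin m → Fin (m + 1)) (r : J → Fin m)
    (a : J → Fin (m + 1)) (h1 : ∀ j, Function.Injective (c j)) (h2 : ∀ j i, c j i ≠ a j)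
    (ha : Function.Injective a) (h3 : ∀ j j' i, H.Adj j j' → c j i ≠ c j' i)
    (h4 : ∀ j j', H.Adj j j' → c j' (r j) = a j)
    (h5 : Function.Injective fun j => c j (r j)) {j0 j1 : J} (hj : j0 ≠ j1) :
    IsLocating (KP m H) (m + 1) (colr c) := by
  have hs : ∀ j x, x ≠ a j → ∃ i, c j i = x := fun j x hx =>
    col_surj (h1 j) (M := {a j}) (fun i => by simpa using h2 j i) (by simp) (by simpa using hx)
  have hG : (KP m H).Connected := kp_connected hH
  refine ⟨colr_proper h1 h3, ?_, ?_⟩
  · intro x
    by_cases hx : x = a j0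
    · obtain ⟨i, hi⟩ := hs j1 x (by rw [hx]; exact fun h => hj (ha h))
      exact ⟨(i, j1), hi⟩
    · obtain ⟨i, hi⟩ := hs j0 x hx
      exact ⟨(i, j0), hi⟩
  rintro ⟨i, j⟩ ⟨i', j'⟩ hcode
  have hne : ∀ x : Fin (m + 1), (colr c ⁻¹' {x}).Nonempty := by
    intro x
    by_cases hx : x = a j0
    · obtain ⟨i, hi⟩ := hs j1 x (by rw [hx]; exact fun h => hj (ha h))
      exact ⟨(i, j1), hi⟩
    · obtain ⟨i, hi⟩ := hs j0 x hx
      exact ⟨(i, j0), hi⟩
  -- the same colour
  have hcol : c j' i' = c j i := by
    have := hcode (c j i)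
    rw [dTo_self _ (show (i, j) ∈ colr c ⁻¹' {c j i} from rfl)] at this
    exact mem_of_dTo_zero hG (hne _) this.symm
  by_cases hjj : j = j'
  · subst hjj
    rw [h1 j hcol]
  exfalso
  -- vertices at distance one from the missing colour
  have key : ∀ (i i' : Fin m) (j j' : J), j ≠ j' → c j' i' = c j i →
      (∀ x, dTo (KP m H) (i, j) (colr c ⁻¹' {x}) = dTo (KP m H) (i', j') (colr c ⁻¹' {x})) →
      i = r j := by
    intro i i' j j' hjj hcol hcode
    obtain ⟨s, hs1⟩ := hs j' (a j) (fun h => hjj (ha h))
    have e1 : dTo (KP m H) (i', j') (colr c ⁻¹' {a j}) = 1 :=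
      dTo_present hH (by rw [hcol]; exact h2 j i) hs1
    have e2 := hcode (a j)
    rw [e1] at e2
    obtain ⟨⟨i2, j2⟩, hu1, hu2⟩ := adj_of_dTo_one (hne _) e2
    rw [adj_iff] at hu2
    rcases hu2 with ⟨-, h⟩ | ⟨h, h'⟩
    · simp only at h
      subst h
      exact absurd hu1 (h2 j i2)
    · simp only at h h'
      subst h'
      exact h1 j2 (show c j2 i = c j2 (r j) from (show c j2 i = a j from hu1).trans (h4 j j2 h).symm)
  have k1 := key i i' j j' hjj hcol hcode
  have k2 := key i' i j' j (Ne.symm hjj) hcol.symm fun x => (hcode x).symm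
  apply hjj
  apply h5
  simp only
  rw [← k1, ← k2, hcol]

/-- the distance to a colour class, if the columns with the colour have it in row `r` where they
are adjacent to columns without it -/
theorem dTo_class [NeZero m] (hH : H.Connected) {c : J → Fin m → Fin k} (a : Fin k) (r : Fin m)
    (d : J → ℕ) (h0 : ∀ j, d j = 0 ↔ ∃ i, c j i = a)
    (h1 : ∀ j j', H.Adj j j' → d j ≤ d j' + 1) (h2 : ∀ j, d j ≠ 0 → ∃ j', H.Adj j j' ∧ d j' + 1 = d j)
    (h3 : ∀ j j', H.Adj j j' → d j ≠ 0 → d j' = 0 → c j' r = a)
    (hinj : ∀ j, Function.Injective (c j)) {i : Fin m} {j : J} (hj : d j ≠ 0) :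
    dTo (KP m H) (i, j) (colr c ⁻¹' {a}) = d j + if i = r then 0 else 1 := by
  classical
  let f : Fin m × J → ℕ := fun v =>
    if d v.2 = 0 then (if c v.2 v.1 = a then 0 else 1) else d v.2 + if v.1 = r then 0 else 1
  have hf : f (i, j) = d j + if i = r then 0 else 1 := if_neg hj
  rw [← hf]
  refine dTo_cert (kp_connected hH) f ?_ ?_ ?_ ?_ _
  · rintro ⟨i, j⟩ hv
    have hv' : c j i = a := hv
    show (if d j = 0 then (if c j i = a then 0 else 1) else d j + if i = r then 0 else 1) = 0
    rw [if_pos ((h0 j).2 ⟨i, hv'⟩), if_pos hv']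
  · rintro ⟨i, j⟩ hv
    have hv' : (if d j = 0 then (if c j i = a then 0 else 1) else d j + if i = r then 0 else 1) = 0 :=
      hv
    show c j i = a
    by_contra hne
    split_ifs at hv' <;> omega
  · rintro ⟨i, j⟩ ⟨i', j'⟩ hadj
    show (if d j = 0 then (if c j i = a then 0 else 1) else d j + if i = r then 0 else 1) ≤
      (if d j' = 0 then (if c j' i' = a then 0 else 1) else d j' + if i' = r then 0 else 1) + 1
    rw [adj_iff] at hadj
    rcases hadj with ⟨-, h⟩ | ⟨h, h'⟩
    · simp only at h
      subst h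
      split_ifs <;> omega
    · simp only at h h'
      subst h'
      have e1 := h1 j j' h
      have e2 := h1 j' j h.symm
      have e3 := h3 j j' h
      have e4 := h3 j' j h.symm
      by_cases hd : d j = 0
      · rw [if_pos hd]
        split_ifs <;> omega
      · rw [if_neg hd]
        by_cases hd' : d j' = 0
        · rw [if_pos hd']
          have e5 := e3 hd hd'
          by_cases hi : i = r
          · rw [if_pos hi]
            split_ifs <;> omega
          · rw [if_neg hi]
            have : c j' i ≠ a := fun h => hi (hinj j' (h.trans e5.symm))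
            rw [if_neg this]
            omega
        · rw [if_neg hd']
          omega
  · rintro ⟨i, j⟩ hv
    have hv' : (if d j = 0 then (if c j i = a then 0 else 1) else d j + if i = r then 0 else 1) ≠ 0 :=
      hv
    show ∃ u, (KP m H).Adj (i, j) u ∧ f u + 1 =
      (if d j = 0 then (if c j i = a then 0 else 1) else d j + if i = r then 0 else 1)
    by_cases hd : d j = 0
    · rw [if_pos hd] at hv' ⊢
      have hne : c j i ≠ a := fun h => hv' (if_pos h)
      rw [if_neg hne]
      obtain ⟨s, hs⟩ := (h0 j).1 hd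
      refine ⟨(s, j), adj_col ?_ j, ?_⟩
      · rintro rfl
        exact hne hs
      · show (if d j = 0 then (if c j s = a then 0 else 1) else d j + if s = r then 0 else 1) + 1 = 1
        rw [if_pos hd, if_pos hs]
    · rw [if_neg hd]
      obtain ⟨j', hj', hd'⟩ := h2 j hd
      refine ⟨(i, j'), adj_row i hj', ?_⟩
      show (if d j' = 0 then (if c j' i = a then 0 else 1) else d j' + if i = r then 0 else 1) + 1 = _
      by_cases hd0 : d j' = 0
      · rw [if_pos hd0]
        have e5 := h3 j j' hj' hd hd0
        by_cases hi : i = r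
        · rw [if_pos hi, hi, if_pos e5]
          omega
        · have : c j' i ≠ a := fun h => hi (hinj j' (h.trans e5.symm))
          rw [if_neg hi, if_neg this]
          omega
      · rw [if_neg hd0]
        omega

end Pool.Agent.Q120.LC
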