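import Mathlib
import Pool.Agent.Q120.LC.Upper

set_option autoImplicit false

/-!
# Locating colourings of `K_m □ C_n` and `K_m □ P_n` with `m + 1` colours, `n ≤ m + 1`
-/

namespace Pool.Agent.Q120.LC

open SimpleGraph

lemma cyc_adj {n : ℕ} (hn : 3 ≤ n) (u v : Fin n) : (cycleGraph n).Adj u v ↔
    (u.val + 1 = v.val ∨ v.val + 1 = u.val ∨ (u.val = 0 ∧ v.val + 1 = n) ∨
      (v.val = 0 ∧ u.val + 1 = n)) := by
  rw [cycleGraph_adj', Fin.sub_def, Fin.sub_def]
  simp only
  have h1 := u.isLt
  have h2 := v.isLt
  have key : ∀ a b : ℕ, a < n → b < n → ((n - b + a) % n = 1 ↔ (b + 1 = a ∨ (a = 0 ∧ b + 1 = n))) := by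
    intro a b ha hb
    rcases Nat.lt_or_ge (n - b + a) n with h | h
    · rw [Nat.mod_eq_of_lt h]
      omega
    · have : n - b + a = (a - b) + n := by omega
      rw [this, Nat.add_mod_right, Nat.mod_eq_of_lt (by omega)]
      omega
  rw [key u v h1 h2, key v u h2 h1]
  tauto

lemma cyc_deg {n : ℕ} (hn : 3 ≤ n) (j : Fin n) (T : Finset (Fin n))
    (hT : ∀ x ∈ T, (cycleGraph n).Adj j x) : T.card ≤ 2 := by
  have hj := j.isLt
  have : T ⊆ {(⟨if j.val + 1 = n then 0 else j.val + 1, by split_ifs <;> omega⟩ : Fin n),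
      (⟨if j.val = 0 then n - 1 else j.val - 1, by split_ifs <;> omega⟩ : Fin n)} := by
    intro x hx
    have h := (cyc_adj hn j x).1 (hT x hx)
    have hx := x.isLt
    simp only [Finset.mem_insert, Finset.mem_singleton, Fin.ext_iff]
    split_ifs <;> omega
  exact le_trans (Finset.card_le_card this) Finset.card_le_two

lemma path_deg {n : ℕ} (hn : 3 ≤ n) (j : Fin n) (T : Finset (Fin n))
    (hT : ∀ x ∈ T, (pathGraph n).Adj j x) : T.card ≤ 2 :=
  cyc_deg hn j T fun x hx => pathGraph_le_cycleGraph (hT x hx)

lemma cyc_conn {n : ℕ} (hn : 3 ≤ n) : (cycleGraph n).Connected := by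
  obtain ⟨k, rfl⟩ : ∃ k, n = k + 1 := ⟨n - 1, by omega⟩
  exact cycleGraph_connected

lemma path_conn {n : ℕ} (hn : 3 ≤ n) : (pathGraph n).Connected := by
  obtain ⟨k, rfl⟩ : ∃ k, n = k + 1 := ⟨n - 1, by omega⟩
  exact pathGraph_connected k

section

variable (m n : ℕ)

def nx (j : ℕ) : ℕ := if j + 1 = n then 0 else j + 1
def pv (j : ℕ) : ℕ := if j = 0 then n - 1 else j - 1
def rr (j : ℕ) : ℕ := if j < m then j else 2
def uu (j : ℕ) : ℕ := if j + 2 < n then j + 2 else j + 2 - n

/-- the colour with a given number -/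
def cl (x : ℕ) : Fin (m + 1) := Fin.ofNat (m + 1) x

lemma cl_val {x : ℕ} (hx : x < m + 1) : (cl m x).val = x := Nat.mod_eq_of_lt hx

lemma nx_spec {j : ℕ} (hj : j < n) : (j + 1 = n ∧ nx n j = 0) ∨ (j + 1 < n ∧ nx n j = j + 1) := by
  unfold nx
  split_ifs <;> omega

lemma pv_spec {j : ℕ} (hj : j < n) : (j = 0 ∧ pv n j = n - 1) ∨ (0 < j ∧ pv n j = j - 1) := by
  unfold pv
  split_ifs <;> omega

lemma rr_spec (j : ℕ) : (j < m ∧ rr m j = j) ∨ (m ≤ j ∧ rr m j = 2) := by
  unfold rr
  split_ifs <;> omega

lemma uu_spec (j : ℕ) : (j + 2 < n ∧ uu n j = j + 2) ∨ (n ≤ j + 2 ∧ uu n j = j + 2 - n) := by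
  unfold uu
  split_ifs <;> omega

/-- the prescribed cells -/
def FA (j : Fin n) (i : Fin m) : Option (Fin (m + 1)) :=
  if i.val = rr m (nx n j) then some (cl m (nx n j)) else
    if i.val = rr m (pv n j) then some (cl m (pv n j)) else
      if i.val = rr m j then some (cl m (uu n j)) else none

end

variable {m n : ℕ}

lemma FA_some (hn : n ≤ m + 1) {j : Fin n} {i : Fin m} {x : Fin (m + 1)} (h : FA m n j i = some x) :
    (i.val = rr m (nx n j) ∧ x.val = nx n j) ∨ (i.val = rr m (pv n j) ∧ x.val = pv n j) ∨
      (i.val = rr m j ∧ x.val = uu n j) := by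
  have hj := j.isLt
  have e1 := nx_spec n hj
  have e2 := pv_spec n hj
  have e3 := uu_spec n j
  unfold FA at h
  split_ifs at h with h1 h2 h3
  · left
    refine ⟨h1, ?_⟩
    rw [← Option.some.inj h, cl_val m (by omega)]
  · right; left
    refine ⟨h2, ?_⟩
    rw [← Option.some.inj h, cl_val m (by omega)]
  · right; right
    refine ⟨h3, ?_⟩
    rw [← Option.some.inj h, cl_val m (by omega)]

/-- existence of the colouring -/
theorem exists_A (hm : 7 ≤ m) (hn5 : 5 ≤ n) (hn : n ≤ m + 1) :
    ∃ (c : Fin n → Fin m → Fin (m + 1)) (r : Fin n → Fin m) (a : Fin n → Fin (m + 1)),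
      (∀ j, Function.Injective (c j)) ∧ (∀ j i, c j i ≠ a j) ∧ Function.Injective a ∧
      (∀ j j' i, (cycleGraph n).Adj j j' → c j i ≠ c j' i) ∧
      (∀ j j', (cycleGraph n).Adj j j' → c j' (r j) = a j) ∧
      Function.Injective fun j => c j (r j) := by
  have hn3 : 3 ≤ n := by omega
  obtain ⟨c, c1, c2, c3, c4⟩ := complete_all (K := Fin (m + 1)) (m := m) (cycleGraph n)
    (cyc_deg hn3) hm (fun j => {cl m j}) (fun j => by simp) (FA m n)
    (by
      intro j i i' x h h'
      have e := FA_some hn h
      have e' := FA_some hn h'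
      have hj := j.isLt
      have e1 := nx_spec n hj
      have e2 := pv_spec n hj
      have e3 := uu_spec n j
      apply Fin.ext
      omega)
    (by
      intro j i x h hx
      have e := FA_some hn h
      have hj := j.isLt
      have e1 := nx_spec n hj
      have e2 := pv_spec n hj
      have e3 := uu_spec n j
      rw [Finset.mem_singleton] at hx
      have hx' : x.val = j.val := by rw [hx, cl_val m (by omega)]
      omega)
    (by
      intro j j' i x hadj h h'
      rw [cyc_adj hn3] at hadj
      have e := FA_some hn h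
      have e' := FA_some hn h'
      have hj := j.isLt
      have hj' := j'.isLt
      have e1 := nx_spec n hj
      have e2 := pv_spec n hj
      have e3 := uu_spec n j
      have e1' := nx_spec n hj'
      have e2' := pv_spec n hj'
      have e3' := uu_spec n j'
      have f1 := rr_spec m (nx n j)
      have f2 := rr_spec m (pv n j)
      have f3 := rr_spec m j
      have f1' := rr_spec m (nx n j')
      have f2' := rr_spec m (pv n j')
      have f3' := rr_spec m j'
      omega)
    (by
      intro j
      have hj := j.isLt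
      have e1 := nx_spec n hj
      have e2 := pv_spec n hj
      have f1 := rr_spec m (nx n j)
      have f2 := rr_spec m (pv n j)
      have f3 := rr_spec m j
      have : (Finset.univ.filter fun i => FA m n j i ≠ none) ⊆
          {(⟨rr m (nx n j), by omega⟩ : Fin m), ⟨rr m (pv n j), by omega⟩, ⟨rr m j, by omega⟩} := by
        intro i hi
        have hi' := (Finset.mem_filter.1 hi).2
        simp only [Finset.mem_insert, Finset.mem_singleton, Fin.ext_iff]
        unfold FA at hi'
        split_ifs at hi' with h1 h2 h3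
        · exact Or.inl h1
        · exact Or.inr (Or.inl h2)
        · exact Or.inr (Or.inr h3)
        · exact absurd rfl hi'
      exact le_trans (Finset.card_le_card this) Finset.card_le_three)
  have hr : ∀ j : ℕ, rr m j < m := fun j => by
    have := rr_spec m j
    omega
  refine ⟨c, fun j => ⟨rr m j, hr j⟩, fun j => cl m j, c1, fun j i h => c2 j i (by simp [h]), ?_, c3,
    ?_, ?_⟩
  · intro j j' h
    have h2 := congrArg Fin.val h
    simp only at h2
    rw [cl_val m (by omega), cl_val m (by omega)] at h2
    exact Fin.ext h2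
  · intro j j' hadj
    apply c4
    rw [cyc_adj hn3] at hadj
    have hj := j.isLt
    have hj' := j'.isLt
    have e1' := nx_spec n hj'
    have e2' := pv_spec n hj'
    have f1' := rr_spec m (nx n j')
    have f2' := rr_spec m (pv n j')
    have f3 := rr_spec m j
    unfold FA
    simp only
    by_cases h1 : nx n j' = j
    · rw [if_pos (by rw [h1]), h1]
    · have h2 : pv n j' = j := by omega
      rw [if_neg (by omega), if_pos (by rw [h2]), h2]
  · have key : ∀ j : Fin n, c j ⟨rr m j, hr j⟩ = cl m (uu n j) := by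
      intro j
      apply c4
      have hj := j.isLt
      have e1 := nx_spec n hj
      have e2 := pv_spec n hj
      have f1 := rr_spec m (nx n j)
      have f2 := rr_spec m (pv n j)
      have f3 := rr_spec m j
      unfold FA
      simp only
      rw [if_neg (by omega), if_neg (by omega)]
      simp
    intro j j' h
    simp only [key] at h
    have h2 := congrArg Fin.val h
    have hj := j.isLt
    have hj' := j'.isLt
    have e3 := uu_spec n j
    have e3' := uu_spec n j'
    rw [cl_val m (by omega), cl_val m (by omega)] at h2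
    apply Fin.ext
    omega

end Pool.Agent.Q120.LC
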