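import Mathlib
import Pool.Agent.Q120.LC.PartA

set_option autoImplicit false

/-!
# Locating colourings of `K_m □ C_n` and `K_m □ P_n` with `m + 2` colours
-/

namespace Pool.Agent.Q120.LC

open SimpleGraph

variable {m n : ℕ}

/-- the path -/
theorem exists_B_path (hm : 7 ≤ m) (hn : 3 ≤ n) :
    ∃ c : Fin m × Fin n → Fin (m + 2), IsLocating (KP m (pathGraph n)) (m + 2) c := by
  have : NeZero m := ⟨by omega⟩
  let A : Fin (m + 2) := ⟨m, by omega⟩
  let B : Fin (m + 2) := ⟨m + 1, by omega⟩
  let C : Fin (m + 2) := ⟨0, by omega⟩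
  let D : Fin (m + 2) := ⟨1, by omega⟩
  have hAB : A ≠ B := by simp [A, B, Fin.ext_iff]
  have hCD : C ≠ D := by simp [C, D, Fin.ext_iff]
  have hAC : A ≠ C := by simp only [A, C, ne_eq, Fin.ext_iff]; omega
  have hAD : A ≠ D := by simp only [A, D, ne_eq, Fin.ext_iff]; omega
  have hBC : B ≠ C := by simp only [B, C, ne_eq, Fin.ext_iff]; omega
  have hBD : B ≠ D := by simp only [B, D, ne_eq, Fin.ext_iff]; omega
  let Miss : Fin n → Finset (Fin (m + 2)) := fun j => if j.val + 1 = n then {C, D} else {A, B}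
  have hMl : ∀ j : Fin n, j.val + 1 = n → Miss j = {C, D} := fun j hj => if_pos hj
  have hMn : ∀ j : Fin n, j.val + 1 ≠ n → Miss j = {A, B} := fun j hj => if_neg hj
  have hK : ∀ j, Fintype.card (Fin (m + 2)) = m + (Miss j).card := by
    intro j
    by_cases h : j.val + 1 = n
    · rw [hMl j h, Finset.card_pair hCD]
      simp
    · rw [hMn j h, Finset.card_pair hAB]
      simp
  obtain ⟨c, c1, c2, c3, -⟩ := complete_all (K := Fin (m + 2)) (m := m) (pathGraph n)
    (path_deg hn) hm Miss hK (fun _ _ => none) (by simp) (by simp) (by simp) (by simp)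
  have hH : (pathGraph n).Connected := path_conn hn
  have hG : (KP m (pathGraph n)).Connected := kp_connected hH
  have hs : ∀ j x, x ∉ Miss j → ∃ i, c j i = x := fun j x hx => col_surj (c1 j) (c2 j) (hK j) hx
  -- the last column
  let e : Fin n := ⟨n - 1, by omega⟩
  have he : e.val + 1 = n := by simp only [e]; omega
  obtain ⟨rA, hrA⟩ := hs e A (by rw [hMl e he]; simp [hAC, hAD])
  obtain ⟨rB, hrB⟩ := hs e B (by rw [hMl e he]; simp [hBC, hBD])
  have hrAB : rA ≠ rB := by
    rintro rfl
    exact hAB (hrA.symm.trans hrB)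
  have hnon : ∀ (j : Fin n) (i : Fin m), j.val + 1 ≠ n → c j i ≠ A ∧ c j i ≠ B := by
    intro j i hj
    have := c2 j i
    rw [hMn j hj] at this
    simpa using this
  have hdist : ∀ (a : Fin (m + 2)) (r : Fin m), (a = A ∨ a = B) → c e r = a →
      ∀ (i : Fin m) (j : Fin n), j.val + 1 ≠ n →
        dTo (KP m (pathGraph n)) (i, j) (colr c ⁻¹' {a}) = (n - 1 - j.val) + if i = r then 0 else 1 := by
    intro a r ha hr i j hj
    have hjl := j.isLt
    refine dTo_class hH a r (fun j => n - 1 - j.val) ?_ ?_ ?_ ?_ c1 (by omega)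
    · intro j
      constructor
      · intro h
        have : j = e := Fin.ext (by have := j.isLt; omega)
        exact ⟨r, this ▸ hr⟩
      · rintro ⟨i, hi⟩
        by_contra hne
        have h1 : j.val + 1 ≠ n := fun h => hne (by omega)
        rcases ha with rfl | rfl
        · exact (hnon j i h1).1 hi
        · exact (hnon j i h1).2 hi
    · intro j j' h
      rw [pathGraph_adj] at h
      omega
    · intro j hj
      have hjl := j.isLt
      refine ⟨⟨j.val + 1, by omega⟩, ?_, ?_⟩
      · rw [pathGraph_adj]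
        exact Or.inl rfl
      · simp only
        omega
    · intro j j' h h1 h2
      have : j' = e := Fin.ext (by have := j'.isLt; omega)
      rw [this]
      exact hr
  have hne : ∀ x : Fin (m + 2), (colr c ⁻¹' {x}).Nonempty := by
    intro x
    by_cases hx : x = A
    · exact ⟨(rA, e), by rw [hx]; exact hrA⟩
    by_cases hx' : x = B
    · exact ⟨(rB, e), by rw [hx']; exact hrB⟩
    obtain ⟨i, hi⟩ := hs ⟨0, by omega⟩ x (by
      rw [hMn _ (by simp only; omega)]
      simp [hx, hx'])
    exact ⟨(i, ⟨0, by omega⟩), hi⟩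
  refine ⟨colr c, colr_proper c1 c3, fun x => (hne x), ?_⟩
  rintro ⟨i, j⟩ ⟨i', j'⟩ hcode
  have hcol : c j' i' = c j i := by
    have := hcode (c j i)
    rw [dTo_self _ (show (i, j) ∈ colr c ⁻¹' {c j i} from rfl)] at this
    exact mem_of_dTo_zero hG (hne _) this.symm
  by_cases hjj : j = j'
  · subst hjj
    rw [c1 j hcol]
  exfalso
  have hjv : j.val ≠ j'.val := fun h => hjj (Fin.ext h)
  have hjl := j.isLt
  have hjl' := j'.isLt
  -- one column is the last one
  have key : ∀ (i i' : Fin m) (j j' : Fin n), j.val + 1 ≠ n → j'.val + 1 = n → c j' i' = c j i →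
      (∀ x, dTo (KP m (pathGraph n)) (i, j) (colr c ⁻¹' {x}) =
        dTo (KP m (pathGraph n)) (i', j') (colr c ⁻¹' {x})) → False := by
    intro i i' j j' hj hj' hcol hcode
    have hjl := j.isLt
    have hj'e : j' = e := Fin.ext (by omega)
    subst hj'e
    have h1 := hcode A
    have h2 := hcode B
    rw [hdist A rA (Or.inl rfl) hrA i j hj,
      dTo_present hH (by rw [hcol]; exact (hnon j i hj).1) hrA] at h1
    rw [hdist B rB (Or.inr rfl) hrB i j hj,
      dTo_present hH (by rw [hcol]; exact (hnon j i hj).2) hrB] at h2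
    split_ifs at h1 h2 with h3 h4
    · exact hrAB (h3.symm.trans h4)
    all_goals omega
  by_cases hj : j.val + 1 = n
  · exact key i' i j' j (by omega) hj hcol.symm fun x => (hcode x).symm
  by_cases hj' : j'.val + 1 = n
  · exact key i i' j j' hj hj' hcol hcode
  have h1 := hcode A
  have h2 := hcode B
  rw [hdist A rA (Or.inl rfl) hrA i j hj, hdist A rA (Or.inl rfl) hrA i' j' hj'] at h1
  rw [hdist B rB (Or.inr rfl) hrB i j hj, hdist B rB (Or.inr rfl) hrB i' j' hj'] at h2
  have h5 : ¬ (i = rA ∧ i = rB) := fun h => hrAB (h.1.symm.trans h.2)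
  have h6 : ¬ (i' = rA ∧ i' = rB) := fun h => hrAB (h.1.symm.trans h.2)
  by_cases g1 : i = rA <;> by_cases g2 : i = rB <;> by_cases g3 : i' = rA <;>
    by_cases g4 : i' = rB <;> simp only [g1, g2, g3, g4, if_true, if_false, and_self] at h1 h2 h5 h6 <;> first | omega | (exfalso; grind)

end Pool.Agent.Q120.LC
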