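import Mathlib
import Pool.Agent.Q120.LC.PartB

set_option autoImplicit false

/-!
# Locating colourings of `K_m □ C_n` with `m + 2` colours
-/

namespace Pool.Agent.Q120.LC

open SimpleGraph

variable {m n : ℕ}

/-- the cycle -/
theorem exists_B_cycle (hm : 7 ≤ m) (hn : 9 ≤ n) :
    ∃ c : Fin m × Fin n → Fin (m + 2), IsLocating (KP m (cycleGraph n)) (m + 2) c := by
  have : NeZero m := ⟨by omega⟩
  have hn3 : 3 ≤ n := by omega
  let A : Fin (m + 2) := ⟨m, by omega⟩
  let B : Fin (m + 2) := ⟨m + 1, by omega⟩
  let C : Fin (m + 2) := ⟨0, by omega⟩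
  have hAB : A ≠ B := by simp [A, B]
  have hAC : A ≠ C := by simp only [A, C, ne_eq, Fin.ext_iff]; omega
  have hBC : B ≠ C := by simp only [B, C, ne_eq, Fin.ext_iff]; omega
  obtain ⟨q1, hq1⟩ : ∃ q, q = (n + 2) / 3 := ⟨_, rfl⟩
  obtain ⟨q2, hq2⟩ : ∃ q, q = (n + 1) / 3 := ⟨_, rfl⟩
  obtain ⟨p, hp⟩ : ∃ p, p = q1 + q2 := ⟨_, rfl⟩
  let z : Fin m := ⟨0, by omega⟩
  let Miss : Fin n → Finset (Fin (m + 2)) := fun j =>
    if j.val < q1 then {A, B} else if j.val < p then {B, C} else {C, A}
  have hM1 : ∀ j : Fin n, j.val < q1 → Miss j = {A, B} := fun j hj => if_pos hj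
  have hM2 : ∀ j : Fin n, q1 ≤ j.val → j.val < p → Miss j = {B, C} := fun j hj hj' => by
    simp only [Miss]
    rw [if_neg (by omega), if_pos hj']
  have hM3 : ∀ j : Fin n, p ≤ j.val → Miss j = {C, A} := fun j hj => by
    simp only [Miss]
    rw [if_neg (by omega), if_neg (by omega)]
  have hcases : ∀ j : Fin n, j.val < q1 ∨ (q1 ≤ j.val ∧ j.val < p) ∨ p ≤ j.val := fun j => by omega
  have hK : ∀ j, Fintype.card (Fin (m + 2)) = m + (Miss j).card := by
    intro j
    rcases hcases j with h | ⟨h, h'⟩ | h
    · rw [hM1 j h, Finset.card_pair hAB]; simp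
    · rw [hM2 j h h', Finset.card_pair hBC]; simp
    · rw [hM3 j h, Finset.card_pair hAC.symm]; simp
  let F : Fin n → Fin m → Option (Fin (m + 2)) := fun j i =>
    if i = z then (if j.val = 0 ∨ j.val + 1 = q1 then some C else
      if j.val = q1 ∨ j.val + 1 = p then some A else
        if j.val = p ∨ j.val + 1 = n then some B else none) else none
  have hF : ∀ j i x, F j i = some x → i = z ∧ (((j.val = 0 ∨ j.val + 1 = q1) ∧ x = C) ∨
      ((j.val = q1 ∨ j.val + 1 = p) ∧ x = A) ∨ ((j.val = p ∨ j.val + 1 = n) ∧ x = B)) := by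
    intro j i x h
    simp only [F] at h
    split_ifs at h with h1 h2 h3 h4
    · exact ⟨h1, Or.inl ⟨h2, (Option.some.inj h).symm⟩⟩
    · exact ⟨h1, Or.inr (Or.inl ⟨h3, (Option.some.inj h).symm⟩)⟩
    · exact ⟨h1, Or.inr (Or.inr ⟨h4, (Option.some.inj h).symm⟩)⟩
  obtain ⟨c, c1, c2, c3, c4⟩ := complete_all (K := Fin (m + 2)) (m := m) (cycleGraph n)
    (cyc_deg hn3) hm Miss hK F
    (by
      intro j i i' x h h'
      exact (hF j i x h).1.trans (hF j i' x h').1.symm)
    (by
      intro j i x h
      obtain ⟨-, h⟩ := hF j i x h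
      have hjl := j.isLt
      rcases h with ⟨h, rfl⟩ | ⟨h, rfl⟩ | ⟨h, rfl⟩
      · rw [hM1 j (by omega)]
        simp [hAC.symm, hBC.symm]
      · rw [hM2 j (by omega) (by omega)]
        simp [hAB, hAC]
      · rw [hM3 j (by omega)]
        simp [hBC, hAB.symm])
    (by
      intro j j' i x hadj h h'
      rw [cyc_adj hn3] at hadj
      obtain ⟨-, h⟩ := hF j i x h
      obtain ⟨-, h'⟩ := hF j' i x h'
      have hjl := j.isLt
      have hjl' := j'.isLt
      rcases h with ⟨h, hx⟩ | ⟨h, hx⟩ | ⟨h, hx⟩ <;> rcases h' with ⟨h', hx'⟩ | ⟨h', hx'⟩ | ⟨h', hx'⟩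
      · omega
      · exact hAC (hx'.symm.trans hx)
      · exact hBC (hx'.symm.trans hx)
      · exact hAC (hx.symm.trans hx')
      · omega
      · exact hAB (hx.symm.trans hx')
      · exact hBC (hx.symm.trans hx')
      · exact hAB (hx'.symm.trans hx)
      · omega)
    (by
      intro j
      have : (Finset.univ.filter fun i => F j i ≠ none) ⊆ {z} := by
        intro i hi
        have hi' := (Finset.mem_filter.1 hi).2
        rw [Finset.mem_singleton]
        by_contra hne
        exact hi' (if_neg hne)
      have := Finset.card_le_card this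
      simp only [Finset.card_singleton] at this
      omega)
  have hH : (cycleGraph n).Connected := cyc_conn hn3
  have hG : (KP m (cycleGraph n)).Connected := kp_connected hH
  have hs : ∀ j x, x ∉ Miss j → ∃ i, c j i = x := fun j x hx => col_surj (c1 j) (c2 j) (hK j) hx
  -- prescribed cells
  have fC : ∀ j : Fin n, (j.val = 0 ∨ j.val + 1 = q1) → c j z = C := fun j hj => by
    apply c4
    simp only [F]
    rw [if_pos trivial, if_pos hj]
  have fA : ∀ j : Fin n, (j.val = q1 ∨ j.val + 1 = p) → c j z = A := fun j hj => by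
    apply c4
    simp only [F]
    rw [if_pos trivial, if_neg (by omega), if_pos hj]
  have fB : ∀ j : Fin n, (j.val = p ∨ j.val + 1 = n) → c j z = B := fun j hj => by
    apply c4
    simp only [F]
    rw [if_pos trivial, if_neg (by omega), if_neg (by omega), if_pos hj]
  -- missing colours
  have m1 : ∀ (j : Fin n) (i : Fin m), j.val < q1 → c j i ≠ A ∧ c j i ≠ B := by
    intro j i hj
    have := c2 j i
    rw [hM1 j hj] at this
    simpa using this
  have m2 : ∀ (j : Fin n) (i : Fin m), q1 ≤ j.val → j.val < p → c j i ≠ B ∧ c j i ≠ C := by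
    intro j i hj hj'
    have := c2 j i
    rw [hM2 j hj hj'] at this
    simpa using this
  have m3 : ∀ (j : Fin n) (i : Fin m), p ≤ j.val → c j i ≠ C ∧ c j i ≠ A := by
    intro j i hj
    have := c2 j i
    rw [hM3 j hj] at this
    simpa using this
  -- present colours
  have pA : ∀ j : Fin n, q1 ≤ j.val → j.val < p → ∃ i, c j i = A := fun j h h' =>
    hs j A (by rw [hM2 j h h']; simp [hAB, hAC])
  have pB : ∀ j : Fin n, p ≤ j.val → ∃ i, c j i = B := fun j h =>
    hs j B (by rw [hM3 j h]; simp [hBC, hAB.symm])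
  have pC : ∀ j : Fin n, j.val < q1 → ∃ i, c j i = C := fun j h =>
    hs j C (by rw [hM1 j h]; simp [hAC.symm, hBC.symm])
  -- distances
  let dA : Fin n → ℕ := fun j => if j.val < q1 then q1 - j.val else if j.val < p then 0 else
    j.val - p + 1
  let dB : Fin n → ℕ := fun j => if j.val < q1 then j.val + 1 else if j.val < p then p - j.val else 0
  let dC : Fin n → ℕ := fun j => if j.val < q1 then 0 else if j.val < p then j.val - q1 + 1 else
    n - j.val
  have sA : ∀ j : Fin n, (j.val < q1 ∧ dA j = q1 - j.val) ∨ (q1 ≤ j.val ∧ j.val < p ∧ dA j = 0) ∨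
      (p ≤ j.val ∧ dA j = j.val - p + 1) := fun j => by
    simp only [dA]
    split_ifs <;> omega
  have sB : ∀ j : Fin n, (j.val < q1 ∧ dB j = j.val + 1) ∨ (q1 ≤ j.val ∧ j.val < p ∧
      dB j = p - j.val) ∨ (p ≤ j.val ∧ dB j = 0) := fun j => by
    simp only [dB]
    split_ifs <;> omega
  have sC : ∀ j : Fin n, (j.val < q1 ∧ dC j = 0) ∨ (q1 ≤ j.val ∧ j.val < p ∧
      dC j = j.val - q1 + 1) ∨ (p ≤ j.val ∧ dC j = n - j.val) := fun j => by
    simp only [dC]
    split_ifs <;> omega
  -- the neighbours
  have nb : ∀ j : Fin n, ∀ k : ℕ, k < n → (j.val + 1 = k ∨ k + 1 = j.val ∨ (j.val = 0 ∧ k + 1 = n) ∨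
      (k = 0 ∧ j.val + 1 = n)) → ∃ j' : Fin n, (cycleGraph n).Adj j j' ∧ j'.val = k := by
    intro j k hk h
    exact ⟨⟨k, hk⟩, (cyc_adj hn3 _ _).2 h, rfl⟩
  have gA : ∀ (i : Fin m) (j : Fin n), dA j ≠ 0 →
      dTo (KP m (cycleGraph n)) (i, j) (colr c ⁻¹' {A}) = dA j + if i = z then 0 else 1 := by
    intro i j hj
    refine dTo_class hH A z dA ?_ ?_ ?_ ?_ c1 hj
    · intro j
      have := sA j
      constructor
      · intro h
        exact pA j (by omega) (by omega)
      · rintro ⟨i, hi⟩
        by_contra h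
        rcases hcases j with g | g | g
        · exact (m1 j i g).1 hi
        · omega
        · exact (m3 j i g).2 hi
    · intro j j' h
      rw [cyc_adj hn3] at h
      have := sA j
      have := sA j'
      have := j.isLt
      have := j'.isLt
      omega
    · intro j hj
      have s1 := sA j
      have hjl := j.isLt
      have : ∃ k, k < n ∧ (j.val + 1 = k ∨ k + 1 = j.val ∨ (j.val = 0 ∧ k + 1 = n) ∨
          (k = 0 ∧ j.val + 1 = n)) ∧ ((k < q1 ∧ q1 - k + 1 = dA j) ∨ (q1 ≤ k ∧ k < p ∧ 1 = dA j) ∨
          (p ≤ k ∧ k - p + 1 + 1 = dA j)) := by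
        rcases hcases j with g | g | g
        · exact ⟨j.val + 1, by omega, by omega, by omega⟩
        · omega
        · exact ⟨j.val - 1, by omega, by omega, by omega⟩
      obtain ⟨k, hk, hk2, hk3⟩ := this
      obtain ⟨j', hj', hj2⟩ := nb j k hk hk2
      refine ⟨j', hj', ?_⟩
      have := sA j'
      omega
    · intro j j' h h1 h2
      apply fA
      rw [cyc_adj hn3] at h
      have := sA j
      have := sA j'
      have := j.isLt
      have := j'.isLt
      omega
  have gB : ∀ (i : Fin m) (j : Fin n), dB j ≠ 0 →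
      dTo (KP m (cycleGraph n)) (i, j) (colr c ⁻¹' {B}) = dB j + if i = z then 0 else 1 := by
    intro i j hj
    refine dTo_class hH B z dB ?_ ?_ ?_ ?_ c1 hj
    · intro j
      have := sB j
      constructor
      · intro h
        exact pB j (by omega)
      · rintro ⟨i, hi⟩
        by_contra h
        rcases hcases j with g | g | g
        · exact (m1 j i g).2 hi
        · exact (m2 j i g.1 g.2).1 hi
        · omega
    · intro j j' h
      rw [cyc_adj hn3] at h
      have := sB j
      have := sB j'
      have := j.isLt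
      have := j'.isLt
      omega
    · intro j hj
      have s1 := sB j
      have hjl := j.isLt
      have : ∃ k, k < n ∧ (j.val + 1 = k ∨ k + 1 = j.val ∨ (j.val = 0 ∧ k + 1 = n) ∨
          (k = 0 ∧ j.val + 1 = n)) ∧ ((k < q1 ∧ k + 1 + 1 = dB j) ∨ (q1 ≤ k ∧ k < p ∧ p - k + 1 = dB j) ∨
          (p ≤ k ∧ 1 = dB j)) := by
        rcases hcases j with g | g | g
        · rcases Nat.eq_zero_or_pos j.val with h0 | h0
          · exact ⟨n - 1, by omega, by omega, by omega⟩
          · exact ⟨j.val - 1, by omega, by omega, by omega⟩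
        · exact ⟨j.val + 1, by omega, by omega, by omega⟩
        · omega
      obtain ⟨k, hk, hk2, hk3⟩ := this
      obtain ⟨j', hj', hj2⟩ := nb j k hk hk2
      refine ⟨j', hj', ?_⟩
      have := sB j'
      omega
    · intro j j' h h1 h2
      apply fB
      rw [cyc_adj hn3] at h
      have := sB j
      have := sB j'
      have := j.isLt
      have := j'.isLt
      omega
  have gC : ∀ (i : Fin m) (j : Fin n), dC j ≠ 0 →
      dTo (KP m (cycleGraph n)) (i, j) (colr c ⁻¹' {C}) = dC j + if i = z then 0 else 1 := by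
    intro i j hj
    refine dTo_class hH C z dC ?_ ?_ ?_ ?_ c1 hj
    · intro j
      have := sC j
      have := j.isLt
      constructor
      · intro h
        exact pC j (by omega)
      · rintro ⟨i, hi⟩
        by_contra h
        rcases hcases j with g | g | g
        · omega
        · exact (m2 j i g.1 g.2).2 hi
        · exact (m3 j i g).1 hi
    · intro j j' h
      rw [cyc_adj hn3] at h
      have := sC j
      have := sC j'
      have := j.isLt
      have := j'.isLt
      omega
    · intro j hj
      have s1 := sC j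
      have hjl := j.isLt
      have : ∃ k, k < n ∧ (j.val + 1 = k ∨ k + 1 = j.val ∨ (j.val = 0 ∧ k + 1 = n) ∨
          (k = 0 ∧ j.val + 1 = n)) ∧ ((k < q1 ∧ 1 = dC j) ∨ (q1 ≤ k ∧ k < p ∧ k - q1 + 1 + 1 = dC j) ∨
          (p ≤ k ∧ n - k + 1 = dC j)) := by
        rcases hcases j with g | g | g
        · omega
        · exact ⟨j.val - 1, by omega, by omega, by omega⟩
        · rcases Nat.lt_or_ge (j.val + 1) n with h0 | h0
          · exact ⟨j.val + 1, by omega, by omega, by omega⟩
          · exact ⟨0, by omega, by omega, by omega⟩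
      obtain ⟨k, hk, hk2, hk3⟩ := this
      obtain ⟨j', hj', hj2⟩ := nb j k hk hk2
      refine ⟨j', hj', ?_⟩
      have := sC j'
      omega
    · intro j j' h h1 h2
      apply fC
      rw [cyc_adj hn3] at h
      have := sC j
      have := sC j'
      have := j.isLt
      have := j'.isLt
      omega
  have hne : ∀ x : Fin (m + 2), (colr c ⁻¹' {x}).Nonempty := by
    intro x
    by_cases hx : x = A
    · obtain ⟨i, hi⟩ := pA ⟨q1, by omega⟩ le_rfl (by simp only; omega)
      exact ⟨(i, _), hi.trans hx.symm⟩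
    by_cases hx' : x = B
    · obtain ⟨i, hi⟩ := pB ⟨p, by omega⟩ le_rfl
      exact ⟨(i, _), hi.trans hx'.symm⟩
    obtain ⟨i, hi⟩ := hs ⟨0, by omega⟩ x (by
      rw [hM1 _ (by simp only; omega)]
      simp [hx, hx'])
    exact ⟨(i, ⟨0, by omega⟩), hi⟩
  refine ⟨colr c, colr_proper c1 c3, fun x => (hne x), ?_⟩
  have goal : ∀ (i i' : Fin m) (j j' : Fin n), j.val < j'.val → c j' i' = c j i →
      (∀ x, dTo (KP m (cycleGraph n)) (i, j) (colr c ⁻¹' {x}) =
        dTo (KP m (cycleGraph n)) (i', j') (colr c ⁻¹' {x})) → False := by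
    intro i i' j j' hjj hcol hcode
    have hjl := j.isLt
    have hjl' := j'.isLt
    have a1 := sA j
    have a2 := sA j'
    have b1 := sB j
    have b2 := sB j'
    have d1 := sC j
    have d2 := sC j'
    rcases hcases j with g | ⟨g, g'⟩ | g <;> rcases hcases j' with h | ⟨h, h'⟩ | h
    · -- both in the first region
      have e1 := hcode A
      have e2 := hcode B
      rw [gA i j (by omega), gA i' j' (by omega)] at e1
      rw [gB i j (by omega), gB i' j' (by omega)] at e2
      split_ifs at e1 e2 <;> omega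
    · have e1 := hcode A
      obtain ⟨s, hs⟩ := pA j' h h'
      rw [gA i j (by omega), dTo_present hH (by rw [hcol]; exact (m1 j i g).1) hs] at e1
      have hz : i = z := by
        by_contra hz
        rw [if_neg hz] at e1
        omega
      have := fC j (Or.inr (by split_ifs at e1; omega))
      rw [← hz, ← hcol] at this
      exact (m2 j' i' h h').2 this
    · have e1 := hcode B
      obtain ⟨s, hs⟩ := pB j' h
      rw [gB i j (by omega), dTo_present hH (by rw [hcol]; exact (m1 j i g).2) hs] at e1
      have hz : i = z := by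
        by_contra hz
        rw [if_neg hz] at e1
        omega
      have := fC j (Or.inl (by split_ifs at e1; omega))
      rw [← hz, ← hcol] at this
      exact (m3 j' i' h).1 this
    · omega
    · have e1 := hcode B
      have e2 := hcode C
      rw [gB i j (by omega), gB i' j' (by omega)] at e1
      rw [gC i j (by omega), gC i' j' (by omega)] at e2
      split_ifs at e1 e2 <;> omega
    · have e1 := hcode B
      obtain ⟨s, hs⟩ := pB j' h
      rw [gB i j (by omega), dTo_present hH (by rw [hcol]; exact (m2 j i g g').1) hs] at e1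
      have hz : i = z := by
        by_contra hz
        rw [if_neg hz] at e1
        omega
      have := fA j (Or.inr (by split_ifs at e1; omega))
      rw [← hz, ← hcol] at this
      exact (m3 j' i' h).2 this
    · omega
    · omega
    · have e1 := hcode C
      have e2 := hcode A
      rw [gC i j (by omega), gC i' j' (by omega)] at e1
      rw [gA i j (by omega), gA i' j' (by omega)] at e2
      split_ifs at e1 e2 <;> omega
  rintro ⟨i, j⟩ ⟨i', j'⟩ hcode
  have hcol : c j' i' = c j i := by
    have := hcode (c j i)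
    rw [dTo_self _ (show (i, j) ∈ colr c ⁻¹' {c j i} from rfl)] at this
    exact mem_of_dTo_zero hG (hne _) this.symm
  rcases lt_trichotomy j.val j'.val with h | h | h
  · exact (goal i i' j j' h hcol hcode).elim
  · have : j = j' := Fin.ext h
    subst this
    rw [c1 j hcol]
  · exact (goal i' i j' j h hcol.symm fun x => (hcode x).symm).elim

end Pool.Agent.Q120.LC
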